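import Mathlib
import Pool.Agent.H32.RdA

open Finset

namespace Pool.Agent.Results.MP_5ab447_lc.LowerBound

open Pool.Agent.H32.RdA

/-- `T x y` means that `x` beats `y` -/
def IsTour {N : Type} (T : N → N → Prop) : Prop :=
  (∀ x, ¬ T x x) ∧ ∀ x y, x ≠ y → (T x y ↔ ¬ T y x)

open Classical in
/-- label of an inner node: the Condorcet winner of the set of labels of the children if there is
one, and otherwise the label of the marked child -/
noncomputable def node {N : Type} {d : ℕ} (T : N → N → Prop) (lab : Fin d → N) (m : Fin d) : N :=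
  if h : ∃ x ∈ Set.range lab, ∀ y ∈ Set.range lab, y ≠ x → T x y then h.choose else lab m

/-- label of the root of the complete `d`-ary tree of height `h`; nodes at depth `j` are words
`Fin j → Fin d`, `σ` places the teams on the leaves and `μ` gives the marks of the inner nodes -/
noncomputable def win {N : Type} {d : ℕ} (T : N → N → Prop) : (h : ℕ) → ((Fin h → Fin d) → N) →
    ((j : Fin h) → (Fin j → Fin d) → Fin d) → N
  | 0, σ, _ => σ Fin.elim0
  | h + 1, σ, μ => node T (fun i => win T h (fun p => σ (Fin.cons i p))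
      fun j p => μ j.succ (Fin.cons i p)) (μ ⟨0, Nat.succ_pos h⟩ Fin.elim0)

/-- outcomes: a bijective placement and the marks -/
abbrev Om (d h : ℕ) : Type :=
  ((Fin h → Fin d) ≃ Fin (d ^ h)) × ((j : Fin h) → (Fin j → Fin d) → Fin d)

/-- probability that `x` wins -/
noncomputable def r (d h : ℕ) (T : Fin (d ^ h) → Fin (d ^ h) → Prop) (x : Fin (d ^ h)) : ℝ :=
  (Nat.card {ω : Om d h // win T h ω.1 ω.2 = x} : ℝ) / Nat.card (Om d h)

lemma node_cw {N : Type} {d : ℕ} {T : N → N → Prop} (hT : IsTour T) (lab : Fin d → N) (m : Fin d)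
    {x : N} (hx : x ∈ Set.range lab) (h : ∀ y ∈ Set.range lab, y ≠ x → T x y) :
    node T lab m = x := by
  have hex : ∃ x ∈ Set.range lab, ∀ y ∈ Set.range lab, y ≠ x → T x y := ⟨x, hx, h⟩
  rw [node, dif_pos hex]
  by_contra hne
  exact (hT.2 _ _ hne).1 (hex.choose_spec.2 x hx (Ne.symm hne)) (h _ hex.choose_spec.1 hne)

lemma node_no {N : Type} {d : ℕ} (T : N → N → Prop) (lab : Fin d → N) (m : Fin d)
    (h : ¬ ∃ x ∈ Set.range lab, ∀ y ∈ Set.range lab, y ≠ x → T x y) : node T lab m = lab m := by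
  rw [node, dif_neg h]

lemma win_cw {N : Type} {d : ℕ} {T : N → N → Prop} (hT : IsTour T) {c : N}
    (hc : ∀ y, y ≠ c → T c y) : ∀ (h : ℕ) (σ : (Fin h → Fin d) → N)
    (μ : (j : Fin h) → (Fin j → Fin d) → Fin d), (∃ p, σ p = c) → win T h σ μ = c
  | 0, σ, _, ⟨p, hp⟩ => by rw [win, ← hp]; congr 1; exact Subsingleton.elim _ _
  | h + 1, σ, μ, ⟨p, hp⟩ => by
    rw [win]
    refine node_cw hT _ _ ⟨p 0, win_cw hT hc h _ _ ⟨Fin.tail p, ?_⟩⟩ fun y _ hy => hc y hy
    rw [Fin.cons_self_tail, hp]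

lemma sum_r (d h : ℕ) (T : Fin (d ^ h) → Fin (d ^ h) → Prop) (S : Finset (Fin (d ^ h))) :
    ∑ x ∈ S, r d h T x =
      ((∑ μ, (univ.filter fun σ : (Fin h → Fin d) ≃ Fin (d ^ h) => win T h σ μ ∈ S).card : ℕ) : ℝ) /
        Nat.card (Om d h) := by
  simp only [r, ← sum_div]
  congr 1
  norm_cast
  simp only [Nat.card_eq_fintype_card, Fintype.card_subtype]
  have h1 := card_eq_sum_card_fiberwise (s := univ.filter fun ω : Om d h => win T h ω.1 ω.2 ∈ S)
    (t := S) (f := fun ω => win T h ω.1 ω.2) (fun ω hω => by simpa using hω)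
  have h2 : ∑ x ∈ S, (univ.filter fun ω : Om d h => win T h ω.1 ω.2 = x).card =
      (univ.filter fun ω : Om d h => win T h ω.1 ω.2 ∈ S).card := by
    rw [h1]
    refine sum_congr rfl fun x hx => ?_
    rw [filter_filter]
    congr 1
    ext ω
    simp only [mem_filter, mem_univ, true_and, iff_and_self]
    rintro rfl
    exact hx
  rw [h2]
  simp only [card_filter]
  rw [Fintype.sum_prod_type_right]

lemma card_Om (d h : ℕ) : Nat.card (Om d h) =
    (d ^ h).factorial * Fintype.card ((j : Fin h) → (Fin j → Fin d) → Fin d) := by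
  rw [Nat.card_eq_fintype_card, Fintype.card_prod,
    Fintype.card_equiv (Fintype.equivOfCardEq (by simp))]
  simp

lemma sum_r_const (d h : ℕ) (hd : 0 < d) (T : Fin (d ^ h) → Fin (d ^ h) → Prop)
    (S : Finset (Fin (d ^ h))) (K : ℕ) (hK : ∀ μ,
      (univ.filter fun σ : (Fin h → Fin d) ≃ Fin (d ^ h) => win T h σ μ ∈ S).card = K) :
    ∑ x ∈ S, r d h T x = K / (d ^ h).factorial := by
  have : Nonempty (Fin d) := ⟨⟨0, hd⟩⟩
  have h1 : (0 : ℝ) < Fintype.card ((j : Fin h) → (Fin j → Fin d) → Fin d) := by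
    exact_mod_cast Fintype.card_pos
  rw [sum_r, card_Om]
  simp only [hK, sum_const, card_univ, smul_eq_mul]
  push_cast
  field_simp

lemma sum_r_cw (d h : ℕ) (hd : 0 < d) {T : Fin (d ^ h) → Fin (d ^ h) → Prop} (hT : IsTour T)
    (S : Finset (Fin (d ^ h))) {c : Fin (d ^ h)} (hcS : c ∈ S) (hc : ∀ y, y ≠ c → T c y) :
    ∑ x ∈ S, r d h T x = 1 := by
  rw [sum_r_const d h hd T S (d ^ h).factorial, div_self (by positivity)]
  intro μ
  rw [filter_true_of_mem fun σ _ => by rwa [win_cw hT hc h σ μ ⟨σ.symm c, by simp⟩], card_univ,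
    Fintype.card_equiv (Fintype.equivOfCardEq (by simp))]
  simp

/-- the order tournament with the pairs in `R` reversed -/
def tour (n : ℕ) (R : List (ℕ × ℕ)) (x y : Fin n) : Prop :=
  (x.1 < y.1 ∧ (x.1, y.1) ∉ R) ∨ (y.1 < x.1 ∧ (y.1, x.1) ∈ R)

lemma tour_isTour (n : ℕ) (R : List (ℕ × ℕ)) : IsTour (tour n R) := by
  refine ⟨fun x => by simp [tour], fun x y h => ?_⟩
  have : x.1 ≠ y.1 := fun e => h (Fin.ext e)
  rcases lt_or_gt_of_ne this with h | h <;> simp [tour, h, h.not_gt]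

def R0 : List (ℕ × ℕ) := [(0, 1), (0, 2), (1, 2), (1, 3), (1, 4), (2, 3), (2, 4), (3, 4)]

lemma R0_lt {x y : ℕ} (h : (x, y) ∈ R0) : y < 5 := by
  simp only [R0, List.mem_cons, Prod.mk.injEq, List.not_mem_nil, or_false] at h
  omega

lemma node_rho {n d : ℕ} (lab : Fin d → Fin n) (m : Fin d) (b : ℕ → Bool)
    (hb : ∀ y < 5, b y = true ↔ ∃ j, (lab j).1 = y) :
    min (node (tour n R0) lab m).1 5 = lab5 (b 0) (b 1) (b 2) (b 3) (b 4) (min (lab m).1 5) := by
  have hcw : ∀ x : ℕ, x < 5 → b x = true → (∀ y < 5, y ≠ x → b y = true →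
      (x < y ∧ (x, y) ∉ R0) ∨ (y < x ∧ (y, x) ∈ R0)) → (node (tour n R0) lab m).1 = x := by
    intro x hx h1 h2
    obtain ⟨j, hj⟩ := (hb x hx).1 h1
    rw [node_cw (tour_isTour n R0) lab m ⟨j, rfl⟩, hj]
    rintro _ ⟨i, rfl⟩ hi
    have hi' : (lab i).1 ≠ x := fun e => hi (Fin.ext (e.trans hj.symm))
    rw [tour, hj]
    by_cases h5 : (lab i).1 < 5
    · exact h2 _ h5 hi' ((hb _ h5).2 ⟨i, rfl⟩)
    · exact Or.inl ⟨by omega, fun h => h5 (R0_lt h)⟩
  have hno : (∀ x < 5, b x = true → ∃ y < 5, y ≠ x ∧ b y = true ∧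
      ¬ ((x < y ∧ (x, y) ∉ R0) ∨ (y < x ∧ (y, x) ∈ R0))) →
      min (node (tour n R0) lab m).1 5 = min (lab m).1 5 := by
    intro h
    by_cases hex : ∃ x ∈ Set.range lab, ∀ y ∈ Set.range lab, y ≠ x → tour n R0 x y
    · obtain ⟨_, ⟨j, rfl⟩, hj⟩ := hex
      rw [node_cw (tour_isTour n R0) lab m ⟨j, rfl⟩ hj]
      by_cases h5 : (lab j).1 < 5
      · obtain ⟨y, hy, h1, h2, h3⟩ := h _ h5 ((hb _ h5).2 ⟨j, rfl⟩)
        obtain ⟨i, rfl⟩ := (hb y hy).1 h2
        exact (h3 (hj _ ⟨i, rfl⟩ fun e => h1 (congrArg Fin.val e))).elim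
      · by_cases h6 : (lab m).1 < 5
        · rcases hj _ ⟨m, rfl⟩ fun e => h5 (e ▸ h6) with h7 | h7
          · omega
          · exact (h5 (R0_lt h7.2)).elim
        · omega
    · rw [node_no _ _ _ hex]
  have f5 : ∀ P : ℕ → Prop, (∀ y < 5, P y) ↔ P 0 ∧ P 1 ∧ P 2 ∧ P 3 ∧ P 4 := fun P =>
    ⟨fun h => ⟨h 0 (by omega), h 1 (by omega), h 2 (by omega), h 3 (by omega), h 4 (by omega)⟩,
      fun h y hy => by interval_cases y <;> tauto⟩
  have e5 : ∀ P : ℕ → Prop, (∃ y < 5, P y) ↔ P 0 ∨ P 1 ∨ P 2 ∨ P 3 ∨ P 4 := fun P => by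
    have := (f5 fun y => ¬ P y).not
    push Not at this
    rw [this]
    tauto
  have c0 := hcw 0 (by omega)
  have c1 := hcw 1 (by omega)
  have c2 := hcw 2 (by omega)
  have c3 := hcw 3 (by omega)
  have c4 := hcw 4 (by omega)
  clear hcw
  generalize (node (tour n R0) lab m).1 = z at *
  simp only [f5, e5, R0] at c0 c1 c2 c3 c4 hno
  revert c0 c1 c2 c3 c4 hno
  cases b 0 <;> cases b 1 <;> cases b 2 <;> cases b 3 <;> cases b 4 <;>
    simp +contextual [lab5]

lemma node_rho' {n d : ℕ} (lab : Fin d → Fin n) (m : Fin d) (b : Fin 5 → Bool)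
    (hb : ∀ y, b y = true ↔ ∃ j, (lab j).1 = y.1) :
    min (node (tour n R0) lab m).1 5 = lab5 (b 0) (b 1) (b 2) (b 3) (b 4) (min (lab m).1 5) :=
  node_rho lab m (fun y => if h : y < 5 then b ⟨y, h⟩ else false) fun y hy => by
    rw [dif_pos hy, hb]

def leaf {d : ℕ} (i j : Fin d) : Fin 2 → Fin d := Fin.cons i (Fin.cons j Fin.elim0)

lemma leaf_eta {d : ℕ} (p : Fin 2 → Fin d) : leaf (p 0) (p 1) = p := by
  ext i; fin_cases i <;> rfl

lemma count_two (d : ℕ) (hd : 3 ≤ d) (μ : (j : Fin 2) → (Fin j → Fin d) → Fin d) :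
    (univ.filter fun σ : (Fin 2 → Fin d) ≃ Fin (d ^ 2) => win (tour _ R0) 2 σ μ ∈
      (univ.filter fun x : Fin (d ^ 2) => x.1 < 3)).card = tot d * (d ^ 2 - 5).factorial := by
  let z : Fin d := ⟨0, by omega⟩
  let m : Fin d := μ ⟨0, Nat.succ_pos 1⟩ Fin.elim0
  let mk : Fin d → Fin d := fun i => μ (Fin.succ ⟨0, Nat.succ_pos 0⟩) (Fin.cons i Fin.elim0)
  let c : (Fin 2 → Fin d) → Fin d × Bool := fun p =>
    (Equiv.swap z m (p 0), decide (p 1 = mk (p 0)))
  let s : Fin 5 ↪ Fin (d ^ 2) := Fin.castLEEmb (by nlinarith)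
  have hc := count (L := Fin 2 → Fin d) (N := Fin (d ^ 2)) (by simp) s c fun a =>
    root d (grp (a 0).1 (a 1).1 (a 2).1 (a 3).1 (a 4).1 (a 0).2 (a 1).2 (a 2).2 (a 3).2 (a 4).2) < 3
  have hfib : ∀ κ : Fin d × Bool, Fintype.card {l // c l = κ} = bif κ.2 then 1 else d - 1 := by
    rintro ⟨i, t⟩
    have e : {l // c l = (i, t)} ≃ {j // decide (j = mk (Equiv.swap z m i)) = t} :=
      { toFun := fun l => ⟨l.1 1, by
          obtain ⟨h1, h2⟩ := Prod.ext_iff.1 l.2
          simp only [c] at h1 h2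
          have h3 : Equiv.swap z m i = l.1 0 := (Equiv.swap_apply_eq_iff.1 h1).symm
          rw [h3]
          exact h2⟩
        invFun := fun j => ⟨leaf (Equiv.swap z m i) j.1, Prod.ext (Equiv.swap_apply_self _ _ _) j.2⟩
        left_inv := fun l => by
          obtain ⟨h1, h2⟩ := Prod.ext_iff.1 l.2
          simp only [c] at h1 h2
          refine Subtype.ext ?_
          show leaf (Equiv.swap z m i) (l.1 1) = l.1
          have h3 : Equiv.swap z m i = l.1 0 := (Equiv.swap_apply_eq_iff.1 h1).symm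
          rw [h3, leaf_eta]
        right_inv := fun j => rfl }
    rw [Fintype.card_congr e]
    cases t <;> simp
  have hcnt : ∀ (a : Fin 5 → Fin d × Bool) (κ : Fin d × Bool), Fintype.card {y // a y = κ} =
      ((a 0).1.1 == κ.1.1 && (a 0).2 == κ.2).toNat + ((a 1).1.1 == κ.1.1 && (a 1).2 == κ.2).toNat +
      ((a 2).1.1 == κ.1.1 && (a 2).2 == κ.2).toNat + ((a 3).1.1 == κ.1.1 && (a 3).2 == κ.2).toNat +
      ((a 4).1.1 == κ.1.1 && (a 4).2 == κ.2).toNat := by
    intro a κ
    have : ∀ y, (if a y = κ then 1 else 0) = ((a y).1.1 == κ.1.1 && (a y).2 == κ.2).toNat := by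
      intro y
      split_ifs with h
      · simp [h]
      · rw [Prod.ext_iff, Fin.ext_iff] at h
        have : ((a y).1.1 == κ.1.1 && (a y).2 == κ.2) = false := by
          rw [Bool.eq_false_iff]
          simpa using h
        rw [this]; rfl
    rw [Fintype.card_subtype, card_filter, Fin.sum_univ_five]
    simp only [this]
  simp only [Fintype.card_fin] at hc
  rw [← sum_cell d]
  refine Eq.trans ?_ (hc.trans ?_)
  · congr 1
    refine filter_congr fun σ _ => ?_
    let a : Fin 5 → Fin d × Bool := fun y => c (σ.symm (s y))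
    let L := grp (a 0).1 (a 1).1 (a 2).1 (a 3).1 (a 4).1 (a 0).2 (a 1).2 (a 2).2 (a 3).2 (a 4).2
    let W : Fin d → Fin (d ^ 2) := fun i => node (tour _ R0) (fun j => σ (leaf i j)) (mk i)
    have hpos : ∀ (y : Fin 5) (p : Fin 2 → Fin d), (σ p).1 = y.1 ↔ σ.symm (s y) = p := fun y p => by
      rw [Equiv.symm_apply_eq, Fin.ext_iff, eq_comm]
      rfl
    have hW : ∀ i, min (W i).1 5 = L (Equiv.swap z m i).1 := fun i => by
      have hb : ∀ y : Fin 5, ((a y).1.1 == (Equiv.swap z m i).1) = true ↔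
          ∃ j, (σ (leaf i j)).1 = y.1 := fun y => by
        simp only [beq_iff_eq, hpos, ← Fin.ext_iff, a, c, EmbeddingLike.apply_eq_iff_eq]
        constructor
        · rintro rfl
          exact ⟨_, (leaf_eta _).symm⟩
        · rintro ⟨j, hj⟩
          rw [hj]; rfl
      have hv : ∀ y : Fin 5, ((a y).1.1 == (Equiv.swap z m i).1 && (a y).2) =
          decide ((σ (leaf i (mk i))).1 = y.1) := fun y => by
        rw [Bool.eq_iff_iff]
        simp only [Bool.and_eq_true, beq_iff_eq, hpos, ← Fin.ext_iff, a, c,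
          EmbeddingLike.apply_eq_iff_eq, decide_eq_true_eq]
        constructor
        · rintro ⟨rfl, h⟩
          rw [← h, leaf_eta]
        · intro hj
          rw [hj]; exact ⟨rfl, rfl⟩
      rw [node_rho' _ _ _ hb]
      simp only [L, grp, hv]
      congr 1
      generalize (σ (leaf i (mk i))).1 = v
      by_cases h5 : v < 5
      · interval_cases v <;> rfl
      · have h0 : v ≠ 0 := by omega
        have h1 : v ≠ 1 := by omega
        have h2 : v ≠ 2 := by omega
        have h3 : v ≠ 3 := by omega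
        have h4 : v ≠ 4 := by omega
        simp [h0, h1, h2, h3, h4]
        omega
    have hb : ∀ y : Fin 5, anyC (fun i => L i == y.1) d = true ↔ ∃ i, (W i).1 = y.1 := fun y => by
      rw [anyC_iff]
      have := y.2
      constructor
      · rintro ⟨i, hi, h⟩
        have h1 := hW (Equiv.swap z m ⟨i, hi⟩)
        rw [Equiv.swap_apply_self] at h1
        rw [beq_iff_eq] at h
        exact ⟨Equiv.swap z m ⟨i, hi⟩, by simp only at h1; omega⟩
      · rintro ⟨i, h⟩
        refine ⟨_, (Equiv.swap z m i).2, ?_⟩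
        rw [beq_iff_eq, ← hW]
        omega
    have h1 := node_rho' W m _ hb
    rw [hW, Equiv.swap_apply_right] at h1
    have h2 : min (win (tour _ R0) 2 σ μ).1 5 = root d L := h1
    show _ ↔ root d L < 3
    rw [← h2, mem_filter]
    simp only [mem_univ, true_and]
    omega
  · congr 1
    refine sum_congr rfl fun a _ => ?_
    rw [cell, Bool.cond_decide, wt, ← prodC_eq]
    simp only [hfib, hcnt]

lemma count_one (d : ℕ) (hd : 5 ≤ d) (μ : (j : Fin 1) → (Fin j → Fin d) → Fin d) :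
    (univ.filter fun σ : (Fin 1 → Fin d) ≃ Fin (d ^ 1) => win (tour _ [(0, 1), (1, 2)]) 1 σ μ ∈
      (univ.filter fun x : Fin (d ^ 1) => x.1 < 2)).card = 2 * (d ^ 1 - 1).factorial := by
  let q : Fin 1 → Fin d := Fin.cons (μ ⟨0, Nat.succ_pos 0⟩ Fin.elim0) Fin.elim0
  have hw : ∀ σ : (Fin 1 → Fin d) ≃ Fin (d ^ 1), win (tour _ [(0, 1), (1, 2)]) 1 σ μ = σ q := by
    intro σ
    refine node_no _ (fun i => σ (Fin.cons i Fin.elim0)) _ ?_
    rintro ⟨x, -, hx⟩
    have hall : ∀ y : ℕ, ∀ hy : y < d ^ 1, y ≠ x.1 → tour _ [(0, 1), (1, 2)] x ⟨y, hy⟩ :=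
      fun y hy hne => hx _ ⟨σ.symm ⟨y, hy⟩ 0, by
        have : (Fin.cons (σ.symm ⟨y, hy⟩ 0) Fin.elim0 : Fin 1 → Fin d) = σ.symm ⟨y, hy⟩ := by
          ext i; fin_cases i; rfl
        simp only [this, Equiv.apply_symm_apply]⟩ fun e => hne (congrArg Fin.val e)
    have h0 := hall 0 (by rw [pow_one]; omega)
    have h1 := hall 1 (by rw [pow_one]; omega)
    have h2 := hall 2 (by rw [pow_one]; omega)
    simp only [tour, List.mem_cons, Prod.mk.injEq, List.not_mem_nil, or_false] at h0 h1 h2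
    generalize x.1 = v at h0 h1 h2
    rcases v with _ | _ | v <;> simp at h0 h1 h2
  have hx : ∀ x : Fin (d ^ 1), (univ.filter fun σ : (Fin 1 → Fin d) ≃ Fin (d ^ 1) => σ q = x).card =
      (d ^ 1 - 1).factorial := fun x => by
    have := card_ext (ι := Unit) (L := Fin 1 → Fin d) (N := Fin (d ^ 1)) (by simp)
      ⟨fun _ => x, fun _ _ _ => rfl⟩ ⟨fun _ => q, fun _ _ _ => rfl⟩
    rw [Fintype.card_subtype, Fintype.card_fin, Fintype.card_unit] at this
    rw [← this]
    congr 1
    refine filter_congr fun σ _ => ?_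
    simp only [Function.Embedding.coeFn_mk, forall_const, Equiv.symm_apply_eq]
    exact eq_comm
  simp only [hw]
  rw [card_eq_sum_card_fiberwise (f := fun σ : (Fin 1 → Fin d) ≃ Fin (d ^ 1) => σ q)
    (t := univ.filter fun x : Fin (d ^ 1) => x.1 < 2) (fun σ hσ => by simpa using hσ),
    sum_congr rfl (g := fun _ => (d ^ 1 - 1).factorial), sum_const, smul_eq_mul]
  · congr 1
    rw [Fin.card_filter_val_lt]
    exact min_eq_right (by rw [pow_one]; omega)
  · intro x hx'
    rw [← hx x, filter_filter]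
    congr 1
    refine filter_congr fun σ _ => ?_
    rw [and_iff_right_iff_imp]
    rintro rfl
    exact hx'

theorem result : ∀ k d : ℕ, 3 ≤ k → k ≤ d → ∃ h, 1 ≤ h ∧
    ∃ (T T' : Fin (d ^ h) → Fin (d ^ h) → Prop) (S : Finset (Fin (d ^ h))), IsTour T ∧ IsTour T' ∧
      S.card ≤ k ∧ (∀ x y, ¬ (x ∈ S ∧ y ∈ S) → (T x y ↔ T' x y)) ∧
      227 / 420 ≤ ∑ x ∈ S, r d h T' x - ∑ x ∈ S, r d h T x := by
  intro k d hk hd
  by_cases h5 : 5 ≤ d
  · refine ⟨1, le_rfl, tour _ [(0, 1), (1, 2)], tour _ [(1, 2)], univ.filter fun x => x.1 < 2,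
      tour_isTour _ _, tour_isTour _ _, ?_, fun x y h => ?_, ?_⟩
    · rw [Fin.card_filter_val_lt]; omega
    · simp only [mem_filter, mem_univ, true_and] at h
      simp only [tour, List.mem_cons, Prod.mk.injEq, List.not_mem_nil, or_false]
      omega
    · rw [sum_r_cw d 1 (by omega) (tour_isTour _ _) _ (c := ⟨0, by rw [pow_one]; omega⟩) (by simp),
        sum_r_const d 1 (by omega) _ _ _ (count_one d h5)]
      · obtain ⟨e, rfl⟩ : ∃ e, d = e + 1 := ⟨d - 1, by omega⟩
        rw [pow_one, Nat.add_sub_cancel, Nat.factorial_succ]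
        have h1 : (0 : ℝ) < e.factorial := by positivity
        have h2 : (4 : ℝ) ≤ e := by exact_mod_cast (by omega : 4 ≤ e)
        have h3 : ((2 * e.factorial : ℕ) : ℝ) / ((e + 1) * e.factorial : ℕ) ≤ 2 / 5 := by
          push_cast
          rw [div_le_div_iff₀ (by positivity) (by norm_num)]
          nlinarith
        linarith
      · intro y hy
        have : y.1 ≠ 0 := fun e => hy (Fin.ext e)
        simp only [tour, List.mem_cons, Prod.mk.injEq, List.not_mem_nil, or_false]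
        omega
  · refine ⟨2, by omega, tour _ R0, tour _ (R0.drop 2), univ.filter fun x => x.1 < 3,
      tour_isTour _ _, tour_isTour _ _, ?_, fun x y h => ?_, ?_⟩
    · rw [Fin.card_filter_val_lt]; omega
    · simp only [mem_filter, mem_univ, true_and] at h
      have key : ∀ a b : ℕ, a < b → ¬ b < 3 → ((a, b) ∈ R0 ↔ (a, b) ∈ R0.drop 2) := by
        intro a b h1 h2
        have : R0 = (0, 1) :: (0, 2) :: R0.drop 2 := rfl
        conv_lhs => rw [this]
        simp only [List.mem_cons, Prod.mk.injEq]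
        constructor
        · rintro (h | h | h)
          exacts [by omega, by omega, h]
        · exact fun h => Or.inr (Or.inr h)
      refine or_congr (and_congr_right fun h1 => ?_) (and_congr_right fun h1 => ?_)
      · rw [key _ _ h1 (by omega)]
      · rw [key _ _ h1 (by omega)]
    · rw [sum_r_cw d 2 (by omega) (tour_isTour _ _) _ (c := ⟨0, pow_pos (by omega) 2⟩) (by simp),
        sum_r_const d 2 (by omega) _ _ _ (count_two d (by omega))]
      · have : d = 3 ∨ d = 4 := by omega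
        rcases this with rfl | rfl
        · rw [tot3]; norm_num [Nat.factorial]
        · rw [tot4]; norm_num [Nat.factorial]
      · intro y hy
        have : y.1 ≠ 0 := fun e => hy (Fin.ext e)
        simp only [tour, R0, List.drop, List.mem_cons, Prod.mk.injEq, List.not_mem_nil, or_false]
        omega

end Pool.Agent.Results.MP_5ab447_lc.LowerBound
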